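import Pool.Agent.Helper39.FT.Stm2
import Pool.Graph.R_seed8.Y791.BC.AlgE
import Pool.Graph.R_seed8.Y791.BC.Desc
import Pool.Graph.R_seed8.Y791.BF.FrobRes
import Pool.Graph.R_seed8.Y791.BF.EmbFG
import Pool.Graph.R_seed8.Y791.BF.ObsFG
import Pool.Graph.R_pool_sql_team_seeded_63374d34.N890.KO.All

/-!
# The birational section conjecture from a function which vanishes at all places (not a result)
-/

set_option autoImplicit false
set_option linter.unusedSectionVars false

open Polynomial IsDedekindDomain NumberField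

namespace Pool.Agent.Helper88.FT.Fin

open Pool.Agent.TH954 Pool.Agent.Y791.BS Pool.Agent.Y791.BF Pool.Agent.Y791.BC
  Pool.Agent.Y791.BC.Leg Pool.Agent.Helper39.FT

section lvl

variable {k : Type} [Field k] [CharZero k] {M : Type} [Field M] [CharZero M] [IsAlgClosed M]
    [Algebra k M] (A : SAct k M) (pl : ∀ i : PlF k, Plc k M (AlgebraicClosure i.Lv))
    (hpl : ∀ i, GeoPlc A (pl i))
    (hdim : ∀ x : M, (∀ w : AlgebraicClosure k, x ≠ A.j w) →
      ∀ t : M, IsAlgebraic (Algebra.adjoin k {x}) t)

include hpl hdim in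
/-- the stable valuation ring -/
theorem all_good (hALL : S_ALL) (hObs : S_ObsFG)
    (E : Lvl k) {x : M} (hx : ∀ τ, A.s τ x = x) (hxc : ∀ w : AlgebraicClosure k, x ≠ A.j w) :
    ∃ W : ValuationSubring M, GoodW A W := by
  have hess := E.ess
  let inst : Algebra (RatFunc E.K) M := ((A.j : AlgebraicClosure k →+* M).comp E.κ).toAlgebra
  have hM : ∀ c : RatFunc E.K, algebraMap (RatFunc E.K) M c = A.j (E.κ c) := fun c => rfl
  have hchR : CharZero (RatFunc E.K) :=
    charZero_of_injective_algebraMap (algebraMap E.K (RatFunc E.K)).injective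
  obtain ⟨A1, g, hg, hj, h1, h2⟩ := exists_base A E.m E.κ E.hκ hM
  choose pl1 hpl1 hval1 using exists_places2 A pl hpl E.m E.κ E.hκ hM A1 g hj h1
  have hf := fixed_iff A E A1 g hg h1 h2
  have hxt : Transcendental (RatFunc E.K) x := by
    intro h
    obtain ⟨w, hw⟩ := alg_range A1.j h
    apply hxc (g w)
    rw [← hj, hw]
  obtain ⟨t, ht0, htv⟩ := hALL E.K hess M A1 pl1 hpl1 x ((hf x).1 (fun τ _ => hx τ)) hxt
  have hdim1 : ∀ z : M, Transcendental (RatFunc E.K) z →
      IsAlgebraic (Algebra.adjoin (RatFunc E.K) {z}) t := by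
    intro z hz
    refine isAlgebraic_adjoin_of E.m (fun c => ?_) (hdim z (fun w hw => hz ?_) t)
    · rw [hM, E.hκ, A.j.commutes]
    · rw [hw, ← g.apply_symm_apply w, ← hj]
      exact (Algebra.IsAlgebraic.isAlgebraic (R := RatFunc E.K) (g.symm w)).algHom A1.j
  obtain ⟨W, hW⟩ := goodW_of_zero A1 (hObs (RatFunc E.K) (ess_ratFunc E.K)) pl1 hpl1 ht0 htv
    hdim1
  exact ⟨W, goodW_base A E.κ E.hα A1 g hj h2 hW⟩

end lvl

/-- all sections -/
theorem all_main (hALL : S_ALL) (hEmb : S_EmbFG) (hObs : S_ObsFG) (hDesc : S_Desc)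
    {k : Type} [Field k] [CharZero k] (hk : Algebra.EssFiniteType ℚ k)
    {F Ω B : Type} [Field F] [Field Ω] [Field B] [Algebra k F] [Algebra F Ω]
    [Algebra k Ω] [Algebra k B] [IsScalarTower k F Ω]
    [IsAlgClosure F Ω] [IsAlgClosure k B]
    (hF : ∃ t : F, Transcendental k t ∧
      Algebra.IsAlgebraic (IntermediateField.adjoin k {t}) F)
    (k' : IntermediateField k Ω) [FiniteDimensional k k']
    (K : Type) [Field K] [CharZero K] (hK : Algebra.EssFiniteType ℚ K)
    (ψ : RatFunc K →+* Ω) (hψ : ψ.fieldRange = k'.toSubfield)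
    (s : GalSection k F Ω B) :
    ∃! O : ValuationSubring F, s.ArisesFrom O := by
  have hΩ1 : IsAlgClosed Ω := IsAlgClosure.isAlgClosed F
  have hΩ2 : Algebra.IsAlgebraic F Ω := IsAlgClosure.isAlgebraic
  have hcF : CharZero F := charZero_of_injective_algebraMap (algebraMap k F).injective
  have hcΩ : CharZero Ω := charZero_of_injective_algebraMap (algebraMap F Ω).injective
  set A := toSAct s with hA
  obtain ⟨x, hxt, -⟩ := id hF
  have hloc : ∀ i : PlF k, s.GeometricOver i.Lv (AlgebraicClosure i.Lv) := fun i =>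
    Pool.Agent.N890.KO.koenigsmann i.L i.v k F Ω B s
  choose pl hpl using fun i : PlF k => toSAct_geo s (hloc i)
  obtain ⟨κ, μ, α, hκ, hα, hκψ⟩ := exists_lvl2 A.j k' ψ hψ
  let E : Lvl k :=
    { K := K
      ess := hK
      κ := κ
      m := μ
      hκ := hκ
      α := α
      hα := hα }
  have hx : ∀ τ, A.s τ (algebraMap F Ω x) = algebraMap F Ω x :=
    fun τ => (s.s ((eqv k B).autCongr τ)).commutes x
  have hxtΩ : Transcendental k (algebraMap F Ω x) := by
    intro h
    apply hxt
    exact (isAlgebraic_algHom_iff (IsScalarTower.toAlgHom k F Ω) (RingHom.injective _)).1 h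
  have hxc : ∀ w : AlgebraicClosure k, algebraMap F Ω x ≠ A.j w := by
    intro w hw
    apply hxtΩ
    rw [hw]
    exact (Algebra.IsAlgebraic.isAlgebraic (R := k) w).algHom A.j
  have hdim : ∀ x : Ω, (∀ w : AlgebraicClosure k, x ≠ A.j w) →
      ∀ t : Ω, IsAlgebraic (Algebra.adjoin k {x}) t := by
    intro x hx t
    refine (alg_adjoin_of_dim hF x (fun h => ?_)).isAlgebraic _
    obtain ⟨w, hw⟩ := alg_range A.j h
    exact hx w hw.symm
  obtain ⟨W, hW⟩ := all_good A pl hpl hdim hALL hObs E hx hxc
  exact geometric_of_good hEmb hDesc hk s W hW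

end Pool.Agent.Helper88.FT.Fin

namespace Pool.Agent.Helper88.FT.Final

/-- Let `F` be an extension of `k`, `Ω` an algebraic closure of `F`, and `kbar` the algebraic closure
of `k` in `Ω`. A section of the restriction map `Gal(Ω/F) → Gal(kbar/k)`: a continuous homomorphism
`hom` such that `hom g` is `g` on `kbar`. -/
structure GaloisSection (k F Ω : Type) [Field k] [Field F] [Field Ω] [Algebra k Ω] [Algebra F Ω] where
  /-- the homomorphism -/
  hom : (algebraicClosure k Ω ≃ₐ[k] algebraicClosure k Ω) →* (Ω ≃ₐ[F] Ω)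
  cont : Continuous hom
  sec : ∀ (g : algebraicClosure k Ω ≃ₐ[k] algebraicClosure k Ω) (x : algebraicClosure k Ω),
    hom g (x : Ω) = ((g x : algebraicClosure k Ω) : Ω)

/-- The section arises from the rational point with the valuation ring `O`: `O` is a nontrivial
valuation ring of `F` over `k` with residue field `k`, and the automorphisms `hom g` map some valuation
ring `W` of `Ω` above `O` to itself. -/
def GaloisSection.ArisesFrom {k F Ω : Type} [Field k] [Field F] [Field Ω] [Algebra k Ω]
    [Algebra F Ω] [Algebra k F] (s : GaloisSection k F Ω) (O : ValuationSubring F) : Prop :=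
  O ≠ ⊤ ∧ (∀ c : k, algebraMap k F c ∈ O) ∧
    (∀ a ∈ O, ∃ c : k, O.valuation (a - algebraMap k F c) < 1) ∧
    ∃ W : ValuationSubring Ω, W.comap (algebraMap F Ω) = O ∧
      ∀ (g : algebraicClosure k Ω ≃ₐ[k] algebraicClosure k Ω) (x : Ω), (s.hom g x ∈ W ↔ x ∈ W)

/-- The birational section conjecture over `k`: for every function field `F` of a curve over `k`
(finitely generated, algebraic over `k (t)` for a transcendental `t`), every section arises from
exactly one rational point. -/
def BirationalSectionConjecture (k : Type) [Field k] : Prop :=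
  ∀ (F Ω : Type) [Field F] [Field Ω] [Algebra k F] [Algebra F Ω] [Algebra k Ω]
    [IsScalarTower k F Ω] [IsAlgClosure F Ω], (⊤ : IntermediateField k F).FG →
    (∃ t : F, Transcendental k t ∧ Algebra.IsAlgebraic (IntermediateField.adjoin k {t}) F) →
    ∀ s : GaloisSection k F Ω, ∃! O : ValuationSubring F, s.ArisesFrom O

open Pool.Agent.TH954 Pool.Agent.Y791.BF Pool.Agent.Y791.BC

/-- the section in the sense of the library -/
def toGal {k F Ω : Type} [Field k] [Field F] [Field Ω] [Algebra k Ω] [Algebra F Ω]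
    (s : GaloisSection k F Ω) : GalSection k F Ω (algebraicClosure k Ω) where
  j := (algebraicClosure k Ω).val
  s := s.hom
  cont := s.cont
  sec := s.sec

lemma arises_iff {k F Ω : Type} [Field k] [Field F] [Field Ω] [Algebra k Ω] [Algebra F Ω]
    [Algebra k F] (s : GaloisSection k F Ω) (O : ValuationSubring F) :
    s.ArisesFrom O ↔ (toGal s).ArisesFrom O := Iff.rfl

/-- the final theorem, from `S_ALL` -/
theorem final (h : Pool.Agent.Helper39.FT.S_ALL) (k : Type) [Field k] [CharZero k]
    [Algebra.EssFiniteType ℚ k] (k1 : Type) [Field k1] [Algebra k k1] [FiniteDimensional k k1]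
    (K : Type) [Field K] [CharZero K] [Algebra.EssFiniteType ℚ K] (e : k1 ≃+* RatFunc K) :
    BirationalSectionConjecture k := by
  intro F Ω _ _ _ _ _ _ _ _ hF s
  have hΩ1 : IsAlgClosed Ω := IsAlgClosure.isAlgClosed F
  have hE : S_EmbFG := EmbFG.main FrobRes.main
  have halg : Algebra.IsAlgebraic k k1 := Algebra.IsAlgebraic.of_finite k k1
  let ι : k1 →ₐ[k] Ω := IsAlgClosed.lift
  have hfin : FiniteDimensional k ι.fieldRange :=
    (AlgEquiv.ofInjectiveField ι).toLinearEquiv.finiteDimensional
  let ψ : RatFunc K →+* Ω := (ι : k1 →+* Ω).comp (e.symm : RatFunc K →+* k1)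
  have hψ : ψ.fieldRange = ι.fieldRange.toSubfield := by
    ext y
    constructor
    · rintro ⟨z, rfl⟩
      exact ⟨e.symm z, rfl⟩
    · rintro ⟨z, rfl⟩
      refine ⟨e z, ?_⟩
      change ι (e.symm (e z)) = _
      rw [RingEquiv.symm_apply_apply]
      rfl
  exact Fin.all_main h hE (ObsFG.main FrobRes.main hE) (Desc.main hE) inferInstance hF
    ι.fieldRange K inferInstance ψ hψ (toGal s)

end Pool.Agent.Helper88.FT.Final
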