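import Pool.Agent.Helper88.FT.U3
import Pool.Agent.Helper39.FT.Defs
import Pool.Graph.R_pool_sql_team_seeded_3997aac3.Q269.FG.Emb

/-! # Reduction systems (not results) -/
set_option autoImplicit false

open IsDedekindDomain NumberField Polynomial

namespace Pool.Agent.Helper88.FT

open Pool.Agent.Y791.BF Pool.Agent.Helper39.FT

/-- Cassels' embedding theorem -/
def Cas : Prop := ∀ (E : Type) [Field E] [CharZero E] (s : Finset E),
    {p : ℕ | ∃ _ : Fact p.Prime, ∃ φ : Subfield.closure (s : Set E) →+* ℚ_[p],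
      ∀ x : Subfield.closure (s : Set E), (x : E) ∈ s → ‖φ x‖ ≤ 1}.Infinite

lemma exists_gen (K : Type) [Field K] [CharZero K] [Algebra.EssFiniteType ℚ K] :
    ∃ s : Finset K, Subfield.closure (s : Set K) = ⊤ := by
  obtain ⟨s, hs⟩ := IntermediateField.fg_top ℚ K
  refine ⟨s, ?_⟩
  rw [eq_top_iff]
  have h1 := congrArg IntermediateField.toSubfield hs
  rw [IntermediateField.adjoin_toSubfield, IntermediateField.top_toSubfield] at h1
  rw [← h1, Subfield.closure_le]
  rintro x (⟨q, rfl⟩ | hx)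
  · rw [SetLike.mem_coe, eq_ratCast]
    exact SubfieldClass.ratCast_mem _ q
  · exact Subfield.subset_closure hx

theorem exists_padic (hC : Cas) (K : Type) [Field K] [CharZero K] [Algebra.EssFiniteType ℚ K]
    (Z : Finset K) (n0 : ℕ) : ∃ (p : ℕ) (_ : Fact p.Prime) (φ : K →+* ℚ_[p]), n0 < p ∧
      ∀ z ∈ Z, z ≠ 0 → ‖φ z‖ = 1 := by
  classical
  obtain ⟨s, hs⟩ := exists_gen K
  obtain ⟨S, hS⟩ : ∃ S : Finset K, S = s ∪ (Z ∪ Z.image (fun z => z⁻¹)) := ⟨_, rfl⟩
  have hcl : Subfield.closure (S : Set K) = ⊤ := by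
    rw [eq_top_iff, ← hs]
    apply Subfield.closure_mono
    rw [hS, Finset.coe_union]
    exact Set.subset_union_left
  obtain ⟨p, ⟨hp, φ0, hφ0⟩, hn⟩ := (hC K S).exists_gt n0
  have hm : ∀ x : K, x ∈ Subfield.closure (S : Set K) := fun x => by
    rw [hcl]
    exact Subfield.mem_top x
  refine ⟨p, hp, φ0.comp ((RingHom.id K).codRestrict (Subfield.closure (S : Set K)) hm), hn, ?_⟩
  obtain ⟨φ, hφ⟩ : ∃ φ : K →+* ℚ_[p],
      φ = φ0.comp ((RingHom.id K).codRestrict (Subfield.closure (S : Set K)) hm) := ⟨_, rfl⟩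
  rw [← hφ]
  have hle : ∀ x ∈ S, ‖φ x‖ ≤ 1 := by
    intro x hx
    rw [hφ]
    exact hφ0 _ hx
  intro z hz hz0
  have h1 := hle z (by rw [hS]; exact Finset.mem_union_right _ (Finset.mem_union_left _ hz))
  have h2 := hle z⁻¹ (by
    rw [hS]
    exact Finset.mem_union_right _ (Finset.mem_union_right _ (Finset.mem_image_of_mem _ hz)))
  have h3 : 0 < ‖φ z‖ := norm_pos_iff.2 ((map_ne_zero φ).2 hz0)
  rw [map_inv₀, norm_inv] at h2
  exact le_antisymm h1 ((inv_le_one₀ h3).1 h2)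

theorem sys_of (hC : Cas) : S_SYS := by
  intro K _ _ hK Z n0
  have := hK
  obtain ⟨p, hp, φ, hn, hZ⟩ := exists_padic hC K Z n0
  choose L i1 i2 v ψ res h0 hr hc using fun m : ℕ =>
    exists_local (p := p) (m := max m 1) (lt_max_of_lt_right one_pos)
  let B : Subring K := (PadicInt.subring p).comap φ
  have hB : ∀ c : K, c ∈ B ↔ ‖φ c‖ ≤ 1 := fun c => Iff.rfl
  let φB : B →+* ℤ_[p] := (φ.comp B.subtype).codRestrict (PadicInt.subring p) (fun c => c.2)
  have hφB : ∀ c : B, ((φB c : ℤ_[p]) : ℚ_[p]) = φ (c : K) := fun c => rfl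
  have hz0 : ∀ w : ℤ_[p], PadicInt.toZMod w = 0 ↔ ‖w‖ < 1 := by
    intro w
    rw [← RingHom.mem_ker, PadicInt.ker_toZMod, IsLocalRing.mem_maximalIdeal, PadicInt.mem_nonunits]
  let D : RSys K :=
    { p := p
      hp := hp
      B := B
      r := PadicInt.toZMod.comp φB
      i := fun m => @PlF.mk K _ (L m) (i1 m) (i2 m) (v m) ((ψ m).comp φ)
      res := fun m => res m
      res_zero := fun m y => h0 m y
      res_range := fun m hm x => by
        have h1 := hr m x
        rw [max_eq_left hm] at h1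
        exact h1
      compat := fun m c => by
        obtain ⟨h, h'⟩ := hc m (φB c)
        exact ⟨h, h'⟩
      val := fun c => by
        rcases le_or_gt ‖φ c‖ 1 with h | h
        · exact Or.inl h
        · right
          have h1 : ‖φ c⁻¹‖ < 1 := by
            rw [map_inv₀, norm_inv]
            exact inv_lt_one_of_one_lt₀ h
          refine ⟨h1.le, ?_⟩
          change PadicInt.toZMod (φB ⟨c⁻¹, h1.le⟩) = 0
          rw [hz0]
          exact h1 }
  refine ⟨D, hn, fun z hz hz0' => ?_⟩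
  have h1 := hZ z hz hz0'
  refine ⟨h1.le, ?_⟩
  change PadicInt.toZMod (φB ⟨z, h1.le⟩) ≠ 0
  rw [Ne, hz0]
  intro h
  have h2 : ‖φ z‖ < 1 := h
  linarith


/-- job SYS -/
theorem main : Pool.Agent.Helper39.FT.S_SYS :=
  sys_of (fun E _ _ s => Pool.Agent.Q269.FG.cassels s)

end Pool.Agent.Helper88.FT
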