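import Pool.Agent.Helper39.FT.Defs

/-!
# Reduction of multiplicities (not results)
-/

set_option autoImplicit false

open Polynomial

namespace Pool.Agent.Helper88.FT.Lft

open Pool.Agent.Y791.BF Pool.Agent.Helper39.FT

/-- multiplicity in a product -/
lemma mult_eq {E : Type} [Field E] {P Q : E[X]} {e : ℕ} {b : E} (hP : P.rootMultiplicity b = 1)
    (hP0 : P ≠ 0) (hQ : Q.eval b ≠ 0) : (P ^ e * Q).rootMultiplicity b = e := by
  have hQ0 : Q ≠ 0 := by
    rintro rfl
    exact hQ eval_zero
  rw [rootMultiplicity_mul (mul_ne_zero (pow_ne_zero _ hP0) hQ0), Types.rootMult_pow, hP,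
    rootMultiplicity_eq_zero hQ, mul_one, add_zero]

/-- separable polynomials have simple roots -/
lemma mult_one {E : Type} [Field E] {P : E[X]} {b : E} (hs : P.Separable) (hb : P.eval b = 0) :
    P.rootMultiplicity b = 1 := by
  apply le_antisymm (rootMultiplicity_le_one_of_separable hs b)
  rw [Nat.one_le_iff_ne_zero, ← Nat.pos_iff_ne_zero, rootMultiplicity_pos hs.ne_zero]
  exact hb

/-- the decomposition -/
lemma exists_dec {K : Type} [Field K] [CharZero K] {A : K[X]} (hA : A ≠ 0)
    (ρ : AlgebraicClosure K) : ∃ (P Q : K[X]) (e : ℕ), P.Monic ∧ 0 < P.natDegree ∧ P.Separable ∧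
      IsCoprime P Q ∧ A = P ^ e * Q ∧ Types.mu A ρ = e := by
  have hint : IsIntegral K ρ := Algebra.IsIntegral.isIntegral ρ
  set q := minpoly K ρ with hq
  have hqirr : Irreducible q := minpoly.irreducible hint
  have hqm : q.Monic := minpoly.monic hint
  have hqdeg : 0 < q.natDegree := minpoly.natDegree_pos hint
  have hfin : FiniteMultiplicity q A := by
    apply finiteMultiplicity_of_degree_pos_of_monic _ hqm hA
    rw [degree_eq_natDegree hqm.ne_zero]
    exact_mod_cast hqdeg
  obtain ⟨Q, hQ, hnd⟩ := hfin.exists_eq_pow_mul_and_not_dvd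
  refine ⟨q, Q, multiplicity q A, hqm, hqdeg, hqirr.separable, (hqirr.coprime_iff_not_dvd).2 hnd,
    hQ, ?_⟩
  have hsep : (q.map (algebraMap K (AlgebraicClosure K))).Separable := hqirr.separable.map
  have h1 : (A.map (algebraMap K (AlgebraicClosure K))).rootMultiplicity ρ = multiplicity q A := by
    conv_lhs => rw [hQ]
    rw [Polynomial.map_mul, Polynomial.map_pow]
    apply mult_eq
    · apply mult_one hsep
      rw [eval_map_algebraMap]
      exact minpoly.aeval K ρ
    · exact hsep.ne_zero
    · rw [eval_map_algebraMap]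
      intro h
      exact hnd (minpoly.dvd K ρ h)
  exact h1

theorem main : S_LFT := by
  classical
  intro K _ _ A hA ρ
  obtain ⟨P, Q, e, hPm, hPd, ⟨u, w, huw⟩, ⟨u2, w2, huw2⟩, hAe, hmu⟩ := exists_dec hA ρ
  let co : K[X] → Finset K := fun F => F.support.image F.coeff
  refine ⟨co P ∪ (co (derivative P) ∪ (co Q ∪ (co u ∪ (co w ∪ (co u2 ∪ co w2))))), ?_⟩
  intro D hD A' hA'
  have hinj : Function.Injective (Polynomial.map D.B.subtype) :=
    Polynomial.map_injective _ D.B.subtype_injective
  have hlift : ∀ F : K[X], (∀ z ∈ co F, z ∈ co P ∪ (co (derivative P) ∪ (co Q ∪ (co u ∪ (co w ∪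
      (co u2 ∪ co w2)))))) → ∃ F0 : D.B[X], F0.map D.B.subtype = F := by
    intro F hF
    have h1 : F ∈ Polynomial.lifts D.B.subtype := by
      rw [Polynomial.lifts_iff_coeff_lifts]
      intro n
      by_cases hn : F.coeff n = 0
      · exact ⟨0, by rw [map_zero, hn]⟩
      · obtain ⟨h, -⟩ := hD (F.coeff n) (hF _ (Finset.mem_image_of_mem _ (mem_support_iff.2 hn))) hn
        exact ⟨⟨F.coeff n, h⟩, rfl⟩
    rwa [Polynomial.mem_lifts] at h1
  obtain ⟨P0, hP0⟩ := hlift P (fun z hz => by simp only [Finset.mem_union]; tauto)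
  obtain ⟨Q0, hQ0⟩ := hlift Q (fun z hz => by simp only [Finset.mem_union]; tauto)
  obtain ⟨u0, hu0⟩ := hlift u (fun z hz => by simp only [Finset.mem_union]; tauto)
  obtain ⟨w0, hw0⟩ := hlift w (fun z hz => by simp only [Finset.mem_union]; tauto)
  obtain ⟨u20, hu20⟩ := hlift u2 (fun z hz => by simp only [Finset.mem_union]; tauto)
  obtain ⟨w20, hw20⟩ := hlift w2 (fun z hz => by simp only [Finset.mem_union]; tauto)
  have e1 : u0 * P0 + w0 * derivative P0 = 1 := by
    apply hinj
    rw [Polynomial.map_add, Polynomial.map_mul, Polynomial.map_mul, ← derivative_map, hu0, hP0, hw0,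
      Polynomial.map_one, huw]
  have e2 : u20 * P0 + w20 * Q0 = 1 := by
    apply hinj
    rw [Polynomial.map_add, Polynomial.map_mul, Polynomial.map_mul, hu20, hP0, hw20, hQ0,
      Polynomial.map_one, huw2]
  have e3 : A' = P0 ^ e * Q0 := by
    apply hinj
    change A'.map _ = Polynomial.map _ _
    rw [Polynomial.map_mul, Polynomial.map_pow, hP0, hQ0, hA', hAe]
  have hP0m : P0.Monic := Polynomial.monic_of_injective D.B.subtype_injective (by rw [hP0]; exact hPm)
  set rE : D.B →+* AlgebraicClosure (ZMod D.p) :=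
    (algebraMap (ZMod D.p) (AlgebraicClosure (ZMod D.p))).comp D.r with hrE
  have hPbm : (P0.map rE).Monic := hP0m.map rE
  have hPbd : 0 < (P0.map rE).natDegree := by
    rw [hP0m.natDegree_map, ← hP0m.natDegree_map D.B.subtype, hP0]
    exact hPd
  obtain ⟨b, hb⟩ : ∃ b, IsRoot (P0.map rE) b := by
    apply IsAlgClosed.exists_root
    rw [degree_eq_natDegree hPbm.ne_zero]
    exact_mod_cast hPbd.ne'
  refine ⟨b, ?_⟩
  rw [hmu, e3, Polynomial.map_mul, Polynomial.map_pow]
  symm
  apply mult_eq
  · apply mult_one _ hb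
    refine ⟨u0.map rE, w0.map rE, ?_⟩
    rw [derivative_map, ← Polynomial.map_mul, ← Polynomial.map_mul, ← Polynomial.map_add, e1,
      Polynomial.map_one]
  · exact hPbm.ne_zero
  · intro h0
    have h1 := congrArg (fun F : D.B[X] => (F.map rE).eval b) e2
    simp only [Polynomial.map_add, Polynomial.map_mul, eval_add, eval_mul, Polynomial.map_one,
      eval_one] at h1
    rw [hb, h0, mul_zero, mul_zero, add_zero] at h1
    exact zero_ne_one h1

end Pool.Agent.Helper88.FT.Lft
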