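import Mathlib

/-!
# Completions of number fields with a given finite residue field (not results)
-/

set_option autoImplicit false

open IsDedekindDomain NumberField Polynomial

namespace Pool.Agent.Helper88.FT

/-- the order of `p` modulo `p ^ m - 1` -/
lemma orderOf_p {p : ℕ} (hp : p.Prime) {m : ℕ} (hm : 0 < m) :
    orderOf (p : ZMod (p ^ m - 1)) = m := by
  have hp1 := hp.one_lt
  have hpm : 1 < p ^ m := Nat.one_lt_pow hm.ne' hp1
  rw [orderOf_eq_iff hm]
  refine ⟨?_, fun k hk hk0 h => ?_⟩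
  · have h1 : ((p ^ m - 1 : ℕ) : ZMod (p ^ m - 1)) = 0 := ZMod.natCast_self _
    rw [Nat.cast_sub hpm.le, sub_eq_zero] at h1
    exact_mod_cast h1
  · have h1 : ((p ^ k - 1 : ℕ) : ZMod (p ^ m - 1)) = 0 := by
      rw [Nat.cast_sub (Nat.one_le_pow _ _ hp.pos), sub_eq_zero]
      exact_mod_cast h
    rw [ZMod.natCast_eq_zero_iff] at h1
    have h2 : p ^ k < p ^ m := Nat.pow_lt_pow_right hp1 hk
    have h3 : 1 < p ^ k := Nat.one_lt_pow hk0.ne' hp1
    have := Nat.le_of_dvd (by omega) h1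
    omega

/-- number fields and places with residue field of `p ^ m` elements -/
theorem exists_place {p : ℕ} (hp : p.Prime) {m : ℕ} (hm : 0 < m) :
    ∃ (L : Type) (_ : Field L) (_ : NumberField L) (v : HeightOneSpectrum (𝓞 L)),
      (p : 𝓞 L) ∈ v.asIdeal ∧ Nat.card (𝓞 L ⧸ v.asIdeal) = p ^ m := by
  have hpm : 1 < p ^ m := Nat.one_lt_pow hm.ne' hp.one_lt
  have : Fact p.Prime := ⟨hp⟩
  have : NeZero (p ^ m - 1) := ⟨by omega⟩
  obtain ⟨L, iF, iN, iC⟩ : ∃ (L : Type) (_ : Field L) (_ : NumberField L),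
      IsCyclotomicExtension {p ^ m - 1} ℚ L := by
    have iC : IsCyclotomicExtension {p ^ m - 1} ℚ (CyclotomicField (p ^ m - 1) ℚ) :=
      CyclotomicField.isCyclotomicExtension _ ℚ
    exact ⟨CyclotomicField (p ^ m - 1) ℚ, inferInstance,
      IsCyclotomicExtension.numberField {p ^ m - 1} ℚ _, iC⟩
  have hspan : (Ideal.span {(p : ℤ)}).IsPrime := by
    rw [Ideal.span_singleton_prime (by exact_mod_cast hp.ne_zero)]
    exact Nat.prime_iff_prime_int.1 hp
  have hmax : (Ideal.span {(p : ℤ)}).IsMaximal :=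
    Int.ideal_span_isMaximal_of_prime p
  obtain ⟨⟨P, hP1, hP2⟩⟩ := (Ideal.span {(p : ℤ)}).nonempty_primesOver (S := 𝓞 L)
  have hpP : (p : 𝓞 L) ∈ P := by
    have h1 : (p : ℤ) ∈ Ideal.span {(p : ℤ)} := Ideal.mem_span_singleton_self _
    rw [hP2.over] at h1
    have h2 : algebraMap ℤ (𝓞 L) (p : ℤ) ∈ P := h1
    simpa using h2
  have hPne : P ≠ ⊥ := by
    rintro rfl
    rw [Ideal.mem_bot] at hpP
    exact hp.ne_zero (Nat.cast_eq_zero.1 hpP)
  have hPm : P.IsMaximal := hP1.isMaximal hPne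
  have hndvd : ¬ p ∣ p ^ m - 1 := by
    intro h
    have h1 : p ∣ p ^ m := dvd_pow_self p hm.ne'
    have h2 := (Nat.dvd_sub h1 h)
    have h3 : p ^ m - (p ^ m - 1) = 1 := by omega
    rw [h3] at h2
    exact hp.one_lt.ne' (Nat.dvd_one.1 h2)
  have h1 := IsCyclotomicExtension.Rat.inertiaDeg_eq_of_not_dvd (m := p ^ m - 1) p L P hndvd
  rw [orderOf_p hp hm] at h1
  have h2 := Ideal.absNorm_eq_pow_inertiaDeg' (p := p) P hp
  rw [Ideal.inertiaDeg'_eq_inertiaDeg, h1] at h2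
  exact ⟨L, iF, iN, ⟨P, hP1, hPne⟩, hpP, h2⟩

end Pool.Agent.Helper88.FT
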