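import Mathlib

/-!
# The map of the `p`-adic numbers to a completion above `p` (not results)
-/

set_option autoImplicit false

open IsDedekindDomain NumberField Polynomial

namespace Pool.Agent.Helper88.FT

variable {L : Type} [Field L] [NumberField L] {v : HeightOneSpectrum (𝓞 L)} {p : ℕ}

lemma norm_int_le (x : 𝓞 L) : ‖((x : L) : v.adicCompletion L)‖ ≤ 1 := by
  have h := FinitePlace.norm_le_one L v x
  exact h

lemma norm_intCast_le (n : ℤ) : ‖(n : v.adicCompletion L)‖ ≤ 1 := by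
  have h := FinitePlace.norm_le_one L v (n : 𝓞 L)
  rwa [map_intCast, map_intCast] at h

lemma norm_p_lt (hpv : (p : 𝓞 L) ∈ v.asIdeal) : ‖((p : ℕ) : v.adicCompletion L)‖ < 1 := by
  have h := (FinitePlace.norm_lt_one_iff_mem L v (p : 𝓞 L)).2 hpv
  rwa [map_natCast, map_natCast] at h

lemma norm_natCast_eq (hp : p.Prime) (hpv : (p : 𝓞 L) ∈ v.asIdeal) {n : ℕ} (hn : ¬ p ∣ n) :
    ‖(n : v.adicCompletion L)‖ = 1 := by
  have h := (FinitePlace.norm_eq_one_iff_notMem L v (n : 𝓞 L)).2 ?_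
  · rwa [map_natCast, map_natCast] at h
  · intro hmem
    have hco : IsCoprime (p : ℤ) (n : ℤ) :=
      Nat.isCoprime_iff_coprime.2 ((Nat.Prime.coprime_iff_not_dvd hp).2 hn)
    obtain ⟨a, b, hab⟩ := hco
    apply v.isPrime.ne_top
    rw [Ideal.eq_top_iff_one]
    have h1 : (1 : 𝓞 L) = (a : 𝓞 L) * (p : 𝓞 L) + (b : 𝓞 L) * (n : 𝓞 L) := by
      have := congrArg (fun z : ℤ => (z : 𝓞 L)) hab
      push_cast at this
      exact this.symm
    rw [h1]
    exact v.asIdeal.add_mem (v.asIdeal.mul_mem_left _ hpv) (v.asIdeal.mul_mem_left _ hmem)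

/-- rational numbers which are `p`-adic integers -/
lemma norm_rat_le [hp : Fact p.Prime] (hpv : (p : 𝓞 L) ∈ v.asIdeal) {q : ℚ}
    (hq : ‖(q : ℚ_[p])‖ ≤ 1) : ‖(q : v.adicCompletion L)‖ ≤ 1 := by
  have hden : ¬ p ∣ q.den := by
    intro h
    have h1 := Padic.norm_rat_le_one (p := p) (q := q)
    have hnum : ¬ (p : ℤ) ∣ q.num := by
      intro h2
      have h3 : p ∣ q.num.natAbs := Int.natCast_dvd.1 h2
      exact hp.out.one_lt.ne' (Nat.dvd_one.1 (by
        have := Nat.dvd_gcd h3 h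
        rwa [q.reduced] at this))
    have h4 : ‖(q.num : ℚ_[p])‖ = 1 := by
      rcases lt_or_eq_of_le (Padic.norm_int_le_one (p := p) q.num) with h5 | h5
      · exact absurd (Padic.norm_intCast_lt_one_iff.1 h5) hnum
      · exact h5
    have h5 : ‖(q.den : ℚ_[p])‖ < 1 := by
      have := Padic.norm_intCast_lt_one_iff (p := p) (k := (q.den : ℤ))
      push_cast at this
      exact this.2 (by exact_mod_cast h)
    have h6 : (q : ℚ_[p]) * (q.den : ℚ_[p]) = (q.num : ℚ_[p]) := by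
      exact_mod_cast Rat.mul_den_eq_num q
    have h7 := congrArg (fun z => ‖z‖) h6
    simp only [norm_mul] at h7
    rw [h4] at h7
    have h8 : ‖(q : ℚ_[p])‖ * ‖(q.den : ℚ_[p])‖ < 1 := by
      calc ‖(q : ℚ_[p])‖ * ‖(q.den : ℚ_[p])‖ ≤ 1 * ‖(q.den : ℚ_[p])‖ :=
            mul_le_mul_of_nonneg_right hq (norm_nonneg _)
        _ < 1 := by rwa [one_mul]
    linarith
  have h1 := norm_natCast_eq hp.out hpv hden
  have hch : CharZero (v.adicCompletion L) := algebraRat.charZero _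
  have h6 : (q : v.adicCompletion L) * (q.den : v.adicCompletion L) =
      (q.num : v.adicCompletion L) := by
    exact_mod_cast congrArg (fun z : ℚ => (z : v.adicCompletion L)) (Rat.mul_den_eq_num q)
  have h7 := congrArg (fun z => ‖z‖) h6
  simp only [norm_mul] at h7
  rw [h1, mul_one] at h7
  rw [h7]
  exact norm_intCast_le _

/-- the map of the `p`-adic numbers to the completion -/
theorem exists_psi [hp : Fact p.Prime] (hpv : (p : 𝓞 L) ∈ v.asIdeal) :
    ∃ ψ : ℚ_[p] →+* v.adicCompletion L, Continuous ψ := by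
  let S : Subfield ℚ_[p] := (algebraMap ℚ ℚ_[p]).fieldRange
  let ι : S →+* ℚ_[p] := S.subtype
  let e : ℚ ≃+* S := RingEquiv.ofBijective (algebraMap ℚ ℚ_[p]).rangeRestrictField
    (algebraMap ℚ ℚ_[p]).rangeRestrictField_bijective
  have he : ∀ q : ℚ, ((e q : S) : ℚ_[p]) = (q : ℚ_[p]) := fun q => by
    change algebraMap ℚ ℚ_[p] q = _
    rw [eq_ratCast]
  let f : S →+* v.adicCompletion L := (algebraMap ℚ (v.adicCompletion L)).comp e.symm
  have hf : ∀ x : S, f x = ((e.symm x : ℚ) : v.adicCompletion L) := fun x => by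
    change algebraMap ℚ (v.adicCompletion L) (e.symm x) = _
    rw [eq_ratCast]
  have ui : IsUniformInducing ι := isUniformInducing_val _
  have hd : DenseRange ι := by
    have h1 := Padic.denseRange_ratCast (p := p)
    apply h1.mono
    rintro _ ⟨q, rfl⟩
    exact ⟨e q, he q⟩
  have huc : UniformContinuous f := by
    refine uniformContinuous_of_continuousAt_zero f ?_
    rw [ContinuousAt, map_zero, Metric.tendsto_nhds_nhds]
    intro ε hε
    obtain ⟨n, hn⟩ := exists_pow_lt_of_lt_one hε (norm_p_lt hpv)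
    have hp0 : (p : ℚ_[p]) ≠ 0 := Nat.cast_ne_zero.2 hp.out.ne_zero
    have hpn : 0 < ‖((p : ℕ) : ℚ_[p])‖ ^ n := pow_pos (norm_pos_iff.2 hp0) n
    refine ⟨‖((p : ℕ) : ℚ_[p])‖ ^ n, hpn, ?_⟩
    intro x hx
    rw [dist_zero_right] at hx ⊢
    have hx' : ‖(x : ℚ_[p])‖ < ‖((p : ℕ) : ℚ_[p])‖ ^ n := hx
    obtain ⟨q, hq⟩ : ∃ q : ℚ, q = e.symm x := ⟨_, rfl⟩
    have hxq : (x : ℚ_[p]) = (q : ℚ_[p]) := by
      rw [← he q, hq, RingEquiv.apply_symm_apply]
    have h1 : ‖((q * ((p : ℚ) ^ n)⁻¹ : ℚ) : ℚ_[p])‖ ≤ 1 := by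
      have e1 : ((q * ((p : ℚ) ^ n)⁻¹ : ℚ) : ℚ_[p]) = (q : ℚ_[p]) * (((p : ℕ) : ℚ_[p]) ^ n)⁻¹ := by
        push_cast
        rfl
      rw [e1, norm_mul, norm_inv, norm_pow, ← div_eq_mul_inv, div_le_one hpn, ← hxq]
      exact hx'.le
    have h2 := norm_rat_le hpv h1
    have hpL : ((p : ℕ) : ℚ) ≠ 0 := Nat.cast_ne_zero.2 hp.out.ne_zero
    have h3 : f x = ((q * ((p : ℚ) ^ n)⁻¹ : ℚ) : v.adicCompletion L) *
        ((p : ℕ) : v.adicCompletion L) ^ n := by
      rw [hf, ← hq]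
      have e2 : q = (q * ((p : ℚ) ^ n)⁻¹) * (p : ℚ) ^ n := by field_simp
      have hch : CharZero (v.adicCompletion L) := algebraRat.charZero _
      conv_lhs => rw [e2]
      rw [Rat.cast_mul, Rat.cast_pow, Rat.cast_natCast]
    rw [h3, norm_mul, norm_pow]
    calc _ ≤ 1 * ‖((p : ℕ) : v.adicCompletion L)‖ ^ n :=
          mul_le_mul_of_nonneg_right h2 (by positivity)
      _ < ε := by rw [one_mul]; exact hn
  exact ⟨IsDenseInducing.extendRingHom ui hd huc,
    (uniformContinuous_uniformly_extend ui hd huc).continuous⟩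

lemma norm_psi_le [hp : Fact p.Prime] {ψ : ℚ_[p] →+* v.adicCompletion L} (hψ : Continuous ψ)
    (w : ℤ_[p]) : ‖ψ (w : ℚ_[p])‖ ≤ 1 := by
  have hcl : IsClosed {w : ℤ_[p] | ‖ψ (w : ℚ_[p])‖ ≤ 1} :=
    isClosed_le ((hψ.comp continuous_subtype_val).norm) continuous_const
  refine (PadicInt.denseRange_intCast (p := p)).induction_on w hcl fun n => ?_
  rw [PadicInt.coe_intCast, map_intCast]
  exact norm_intCast_le n

lemma norm_psi_sub_lt [hp : Fact p.Prime] (hpv : (p : 𝓞 L) ∈ v.asIdeal)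
    {ψ : ℚ_[p] →+* v.adicCompletion L} (hψ : Continuous ψ)
    (w : ℤ_[p]) : ‖ψ (w : ℚ_[p]) - (((PadicInt.toZMod w).val : ℕ) : v.adicCompletion L)‖ < 1 := by
  have h1 := PadicInt.toZMod_spec w
  have h2 : (ZMod.cast (PadicInt.toZMod w) : ℤ_[p]) = (((PadicInt.toZMod w).val : ℕ) : ℤ_[p]) := by
    rw [ZMod.natCast_val]
  rw [h2, PadicInt.maximalIdeal_eq_span_p, Ideal.mem_span_singleton] at h1
  obtain ⟨w', hw'⟩ := h1
  have h3 : ψ (w : ℚ_[p]) - (((PadicInt.toZMod w).val : ℕ) : v.adicCompletion L) =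
      (p : v.adicCompletion L) * ψ (w' : ℚ_[p]) := by
    have h4 := congrArg (fun z : ℤ_[p] => ψ (z : ℚ_[p])) hw'
    push_cast at h4
    rw [map_sub, map_mul, map_natCast, map_natCast] at h4
    exact h4
  rw [h3, norm_mul]
  calc _ ≤ ‖(p : v.adicCompletion L)‖ * 1 :=
        mul_le_mul_of_nonneg_left (norm_psi_le hψ w') (norm_nonneg _)
    _ < 1 := by rw [mul_one]; exact norm_p_lt hpv

end Pool.Agent.Helper88.FT
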