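import Pool.Graph.R_seed8.Y791.BF.Defs
import Pool.Agent.Helper88.FT.U1
import Pool.Agent.Helper88.FT.U2

/-!
# The reduction map of the unit ball (not results)
-/

set_option autoImplicit false

open IsDedekindDomain NumberField Polynomial

namespace Pool.Agent.Helper88.FT

open Pool.Agent.Y791.BF

variable {L : Type} [Field L] [NumberField L] {v : HeightOneSpectrum (𝓞 L)} {p : ℕ}

lemma norm_sub_le_max' (x y : v.adicCompletion L) : ‖x - y‖ ≤ max ‖x‖ ‖y‖ := by
  rw [sub_eq_add_neg]
  refine (IsUltrametricDist.norm_add_le_max _ _).trans ?_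
  rw [norm_neg]

/-- integers are dense in the unit ball -/
lemma exists_int_near (y : v.adicCompletion L) (hy : ‖y‖ ≤ 1) :
    ∃ a : 𝓞 L, ‖y - ((a : L) : v.adicCompletion L)‖ < 1 := by
  have hd : DenseRange (algebraMap L (v.adicCompletion L)) :=
    HeightOneSpectrum.denseRange_algebraMap L v
  obtain ⟨x, hx⟩ := hd.exists_dist_lt y one_pos
  rw [dist_eq_norm] at hx
  have hx' : ‖y - (x : v.adicCompletion L)‖ < 1 := hx
  have hx1 : ‖(x : v.adicCompletion L)‖ ≤ 1 := by
    have e : (x : v.adicCompletion L) = y - (y - (x : v.adicCompletion L)) := by ring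
    rw [e]
    exact (norm_sub_le_max' _ _).trans (max_le hy hx'.le)
  -- `x = n / d`
  obtain ⟨n, d, hd, h⟩ : ∃ n d : 𝓞 L, d ∉ v.asIdeal ∧
      x * algebraMap (𝓞 L) L d = algebraMap (𝓞 L) L n := by
    obtain ⟨n, d, h⟩ := v.exists_primeCompl_mul_eq_or_mul_eq x
    rcases h with h | h
    · exact ⟨n, d, d.2, h⟩
    · refine ⟨d, n, ?_, h⟩
      intro hmem
      have h1 := (FinitePlace.norm_lt_one_iff_mem L v n).2 hmem
      have h2 := (FinitePlace.norm_eq_one_iff_notMem L v (d : 𝓞 L)).2 d.2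
      have h3 := congrArg (fun z => ‖FinitePlace.embedding v z‖) h
      simp only [map_mul, norm_mul] at h3
      change ‖(x : v.adicCompletion L)‖ * ‖FinitePlace.embedding v (algebraMap (𝓞 L) L n)‖ =
        ‖FinitePlace.embedding v (algebraMap (𝓞 L) L (d : 𝓞 L))‖ at h3
      rw [h2] at h3
      have h4 : ‖(x : v.adicCompletion L)‖ * ‖FinitePlace.embedding v (algebraMap (𝓞 L) L n)‖ < 1 :=
        mul_lt_one_of_nonneg_of_lt_one_right hx1 (norm_nonneg _) h1
      linarith
  have hmax : v.asIdeal.IsMaximal := v.isMaximal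
  obtain ⟨d', hd'⟩ : ∃ d' : 𝓞 L, d' * d - 1 ∈ v.asIdeal := by
    obtain ⟨d', i, hi, h1⟩ := hmax.exists_inv hd
    refine ⟨d', ?_⟩
    have : d' * d - 1 = -i := by rw [← h1]; ring
    rw [this]
    exact v.asIdeal.neg_mem hi
  refine ⟨n * d', ?_⟩
  have e1 : y - (((n * d' : 𝓞 L) : L) : v.adicCompletion L) =
      (y - (x : v.adicCompletion L)) - (x : v.adicCompletion L) *
        (((d' * d - 1 : 𝓞 L) : L) : v.adicCompletion L) := by
    have h5 : algebraMap (𝓞 L) L (n * d') = x + x * algebraMap (𝓞 L) L (d' * d - 1) := by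
      rw [map_mul, map_sub, map_mul, map_one, ← h]
      ring
    have h6 : (((n * d' : 𝓞 L) : L) : v.adicCompletion L) = (x : v.adicCompletion L) +
        (x : v.adicCompletion L) * (((d' * d - 1 : 𝓞 L) : L) : v.adicCompletion L) := by
      have h7 := congrArg (algebraMap L (v.adicCompletion L)) h5
      rw [map_add (algebraMap L (v.adicCompletion L)), map_mul (algebraMap L (v.adicCompletion L)) x]
        at h7
      exact h7
    rw [h6]
    ring
  rw [e1]
  refine (norm_sub_le_max' _ _).trans_lt (max_lt hx' ?_)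
  rw [norm_mul]
  have h8 := (FinitePlace.norm_lt_one_iff_mem L v (d' * d - 1)).2 hd'
  exact mul_lt_one_of_nonneg_of_lt_one_right hx1 (norm_nonneg _) h8

/-- reduction modulo the open unit ball -/
theorem exists_red :
    ∃ red : ball1 (v.adicCompletion L) →+* 𝓞 L ⧸ v.asIdeal, Function.Surjective red ∧
      ∀ y, red y = 0 ↔ ‖(y : v.adicCompletion L)‖ < 1 := by
  let M : Ideal (ball1 (v.adicCompletion L)) :=
    { carrier := {y | ‖(y : v.adicCompletion L)‖ < 1}
      add_mem' := fun {a b} ha hb => by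
        change ‖(a : v.adicCompletion L) + (b : v.adicCompletion L)‖ < 1
        exact (IsUltrametricDist.norm_add_le_max _ _).trans_lt (max_lt ha hb)
      zero_mem' := by
        change ‖(0 : v.adicCompletion L)‖ < 1
        rw [norm_zero]
        exact one_pos
      smul_mem' := fun c x hx => by
        change ‖(c : v.adicCompletion L) * (x : v.adicCompletion L)‖ < 1
        rw [norm_mul]
        exact mul_lt_one_of_nonneg_of_lt_one_right c.2 (norm_nonneg _) hx }
  have hM : ∀ y, y ∈ M ↔ ‖(y : v.adicCompletion L)‖ < 1 := fun y => Iff.rfl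
  let g : 𝓞 L →+* ball1 (v.adicCompletion L) :=
    ((FinitePlace.embedding v).comp (algebraMap (𝓞 L) L)).codRestrict _
      (fun x => FinitePlace.norm_le_one L v x)
  have hg : ∀ x, ((g x : ball1 (v.adicCompletion L)) : v.adicCompletion L) =
      ((x : L) : v.adicCompletion L) := fun x => rfl
  let h : 𝓞 L →+* ball1 (v.adicCompletion L) ⧸ M := (Ideal.Quotient.mk M).comp g
  have hker : RingHom.ker h = v.asIdeal := by
    ext x
    rw [RingHom.mem_ker]
    change Ideal.Quotient.mk M (g x) = 0 ↔ _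
    rw [Ideal.Quotient.eq_zero_iff_mem, hM, hg]
    exact FinitePlace.norm_lt_one_iff_mem L v x
  have hsurj : Function.Surjective h := by
    intro z
    obtain ⟨y, rfl⟩ := Ideal.Quotient.mk_surjective z
    obtain ⟨a, ha⟩ := exists_int_near (y : v.adicCompletion L) y.2
    refine ⟨a, ?_⟩
    change Ideal.Quotient.mk M (g a) = _
    rw [Ideal.Quotient.eq, hM]
    have e : ((g a - y : ball1 (v.adicCompletion L)) : v.adicCompletion L) =
        -((y : v.adicCompletion L) - ((a : L) : v.adicCompletion L)) := by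
      rw [neg_sub]
      rfl
    rw [e, norm_neg]
    exact ha
  let e1 : 𝓞 L ⧸ RingHom.ker h ≃+* ball1 (v.adicCompletion L) ⧸ M :=
    RingHom.quotientKerEquivOfSurjective hsurj
  let e2 : 𝓞 L ⧸ RingHom.ker h ≃+* 𝓞 L ⧸ v.asIdeal := Ideal.quotEquivOfEq hker
  refine ⟨((e1.symm.trans e2 : ball1 (v.adicCompletion L) ⧸ M ≃+* 𝓞 L ⧸ v.asIdeal) :
    ball1 (v.adicCompletion L) ⧸ M →+* 𝓞 L ⧸ v.asIdeal).comp (Ideal.Quotient.mk M), ?_, ?_⟩
  · exact (e1.symm.trans e2).surjective.comp Ideal.Quotient.mk_surjective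
  · intro y
    change (e1.symm.trans e2) (Ideal.Quotient.mk M y) = 0 ↔ _
    rw [map_eq_zero_iff _ (e1.symm.trans e2).injective, Ideal.Quotient.eq_zero_iff_mem, hM]

/-- the embedding of a finite field -/
theorem exists_emb_finite [hp : Fact p.Prime] {m : ℕ} (k : Type) [Field k]
    (hk : Nat.card k = p ^ m) (hm : 0 < m) :
    ∃ j : k →+* AlgebraicClosure (ZMod p), ∀ x, (∃ y, j y = x) ↔ x ^ p ^ m = x := by
  classical
  have hfin : Finite k := Nat.finite_of_card_ne_zero (by
    rw [hk]; exact (pow_pos hp.out.pos m).ne')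
  have := Fintype.ofFinite k
  have hcard : Fintype.card k = p ^ m := by rw [← hk, Nat.card_eq_fintype_card]
  have hch : CharP k p := by
    obtain ⟨n, hn, h⟩ := FiniteField.card' k
    obtain ⟨q, hq⟩ := CharP.exists k
    obtain ⟨n', hq', h'⟩ := FiniteField.card k q
    rw [hcard] at h'
    have : q = p := by
      have h1 : q ∣ p ^ m := by rw [h']; exact dvd_pow_self q n'.ne_zero
      exact (Nat.prime_dvd_prime_iff_eq hq' hp.out).1 (hq'.dvd_of_dvd_pow h1)
    rwa [← this]
  let _ : Algebra (ZMod p) k := ZMod.algebra k p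
  have hfd : Module.Finite (ZMod p) k := Module.Finite.of_finite
  have halg : Algebra.IsAlgebraic (ZMod p) k := Algebra.IsAlgebraic.of_finite (ZMod p) k
  let j : k →ₐ[ZMod p] AlgebraicClosure (ZMod p) := IsAlgClosed.lift
  refine ⟨j, fun x => ⟨?_, fun hx => ?_⟩⟩
  · rintro ⟨y, rfl⟩
    change (j y) ^ p ^ m = j y
    rw [← map_pow, ← hcard, FiniteField.pow_card]
  · by_contra hcon
    push Not at hcon
    have hpm : 1 < p ^ m := Nat.one_lt_pow hm.ne' hp.out.one_lt
    let P : (AlgebraicClosure (ZMod p))[X] := X ^ (p ^ m) - X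
    have hP : P ≠ 0 := FiniteField.X_pow_card_sub_X_ne_zero _ hpm
    have hdeg : P.natDegree = p ^ m := FiniteField.X_pow_card_sub_X_natDegree_eq _ hpm
    have hsub : insert x (Finset.univ.image j) ⊆ P.roots.toFinset := by
      intro z hz
      rw [Multiset.mem_toFinset, mem_roots hP]
      change P.eval z = 0
      have : z ^ p ^ m = z := by
        rw [Finset.mem_insert] at hz
        rcases hz with rfl | hz
        · exact hx
        · obtain ⟨y, -, rfl⟩ := Finset.mem_image.1 hz
          rw [← map_pow, ← hcard, FiniteField.pow_card]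
      simp [P, this]
    have h1 := Finset.card_le_card hsub
    rw [Finset.card_insert_of_notMem (by
      intro hmem
      obtain ⟨y, -, hy⟩ := Finset.mem_image.1 hmem
      exact hcon y hy), Finset.card_image_of_injective _ (f := j) (RingHom.injective _), Finset.card_univ, hcard] at h1
    have h2 := (Multiset.toFinset_card_le P.roots).trans (P.card_roots')
    omega

/-- the local data -/
theorem exists_local [hp : Fact p.Prime] {m : ℕ} (hm : 0 < m) :
    ∃ (L : Type) (_ : Field L) (_ : NumberField L) (v : HeightOneSpectrum (𝓞 L))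
      (ψ : ℚ_[p] →+* v.adicCompletion L)
      (res : ball1 (v.adicCompletion L) →+* AlgebraicClosure (ZMod p)),
      (∀ y, res y = 0 ↔ ‖(y : v.adicCompletion L)‖ < 1) ∧
      (∀ x, (∃ y, res y = x) ↔ x ^ p ^ m = x) ∧
      ∀ w : ℤ_[p], ∃ h : ‖ψ (w : ℚ_[p])‖ ≤ 1, res ⟨ψ (w : ℚ_[p]), h⟩ =
        algebraMap (ZMod p) (AlgebraicClosure (ZMod p)) (PadicInt.toZMod w) := by
  obtain ⟨L, i1, i2, v, hpv, hcard⟩ := exists_place hp.out hm
  obtain ⟨ψ, hψ⟩ := exists_psi (v := v) hpv
  obtain ⟨red, hred, hred0⟩ := exists_red (v := v)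
  have hmax : v.asIdeal.IsMaximal := v.isMaximal
  let _ : Field (𝓞 L ⧸ v.asIdeal) := Ideal.Quotient.field _
  obtain ⟨j, hj⟩ := exists_emb_finite (p := p) (m := m) (𝓞 L ⧸ v.asIdeal) hcard hm
  refine ⟨L, i1, i2, v, ψ, j.comp red, ?_, ?_, ?_⟩
  · intro y
    rw [← hred0]
    exact map_eq_zero j
  · intro x
    rw [← hj x]
    constructor
    · rintro ⟨y, hy⟩
      exact ⟨red y, hy⟩
    · rintro ⟨y, hy⟩
      obtain ⟨z, rfl⟩ := hred y
      exact ⟨z, hy⟩
  · intro w
    refine ⟨norm_psi_le hψ w, ?_⟩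
    obtain ⟨n, hn⟩ : ∃ n : ℕ, n = (PadicInt.toZMod w).val := ⟨_, rfl⟩
    have h1 : PadicInt.toZMod w = (n : ZMod p) := by
      rw [hn, ZMod.natCast_zmod_val]
    have h2 := norm_psi_sub_lt hpv hψ w
    rw [← hn] at h2
    have h3 : (j.comp red) (⟨ψ (w : ℚ_[p]), norm_psi_le hψ w⟩ - (n : ball1 (v.adicCompletion L))) =
        0 := by
      change j (red _) = 0
      rw [map_eq_zero j, hred0]
      exact h2
    rw [map_sub, map_natCast, sub_eq_zero] at h3
    rw [h3, h1, map_natCast]

end Pool.Agent.Helper88.FT
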